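import Pool.Agent.H4.EPB.Stm

set_option autoImplicit false

namespace Pool.Agent.H29.EP

open Pool.Agent.H51.EP Pool.Agent.Helper687.Arith Pool.Agent.H4.EPB


/-- part BB7 -/
theorem BB7 : S_BB7 := by
  intro M _ n w
  induction n with
  | zero => exact ⟨0, fun j hj => absurd hj (Nat.not_lt_zero j)⟩
  | succ n ih =>
    obtain ⟨c, hc⟩ := ih
    have hd : DefF (M := M) (fun v => (fun i => the (fun z => (i < (n : M) ∧ z = ap c i) ∨
        (i = (n : M) ∧ z = w n))) (v 0)) := by
      (repeat' first | with_reducible apply Pool.Agent.Helper687.Arith.DefF.ap | with_reducible apply Pool.Agent.H51.EP.Def.cg | with_reducible apply Pool.Agent.H51.EP.DefF.pr | with_reducible apply Pool.Agent.H51.EP.DefF.bn | with_reducible apply Pool.Agent.H51.EP.DefF.ff | with_reducible apply Pool.Agent.H51.EP.DefF.fc | with_reducible apply Pool.Agent.H51.EP.DefF.pw | with_reducible apply Pool.Agent.H51.EP.DefF.sb | with_reducible apply Pool.Agent.H51.EP.DefF.rc | with_reducible apply Pool.Agent.H51.EP.Def.dvd | assumption | with_reducible exact Pool.Agent.Helper687.Arith.DefF.var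 _ | with_reducible exact Pool.Agent.Helper687.Arith.DefF.const _ | with_reducible exact Pool.Agent.Helper687.Arith.Def.const _ | with_reducible apply Pool.Agent.Helper687.Arith.DefF.val | with_reducible apply Pool.Agent.Helper687.Arith.DefF.pow2 | with_reducible apply Pool.Agent.Helper687.Arith.Def.and | with_reducible apply Pool.Agent.Helper687.Arith.Def.or | with_reducible apply Pool.Agent.Helper687.Arith.Def.iff | with_reducible apply Pool.Agent.Helper687.Arith.Def.not | with_reducible apply Pool.Agent.Helper687.Arith.Def.ex | with_reducible apply Pool.Agent.Helper687.Arith.Def.all | with_reducible apply Pool.Agent.Helper687.Arith.Def.imp | with_reducible apply Pool.Agent.Helper687.Arith.Def.eq | with_reducible apply Pool.Agent.Helper687.Arith.Def.lt | with_reducible apply Pool.Agent.Helper687.Arith.Def.le | with_reducible apply Pool.Agent.Helper687.Arith.DefF.add | with_reducible apply Pool.Agent.Helper687.Arith.DefF.mul | with_reducible apply Pool.Agent.Helper687.Arith.DefF.the)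
    obtain ⟨d, h⟩ := exists_ap (f := fun i => the (fun z => (i < (n : M) ∧ z = ap c i) ∨
        (i = (n : M) ∧ z = w n))) hd ((n : M) + 1)
    refine ⟨d, fun j hj => ?_⟩
    rcases Nat.lt_succ_iff_lt_or_eq.mp hj with hj' | rfl
    · have hj'' : (j : M) < (n : M) := Nat.cast_lt.mpr hj'
      rw [h j (lt_succ_iff.mpr hj''.le)]
      refine the_eq (Or.inl ⟨hj'', (hc j hj').symm⟩) ?_
      rintro y (⟨_, hy⟩ | ⟨hy, _⟩)
      · rw [hy, hc j hj']
      · exact absurd hy hj''.ne
    · rw [h j (lt_succ_iff.mpr le_rfl)]
      refine the_eq (Or.inr ⟨rfl, rfl⟩) ?_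
      rintro y (⟨hy, _⟩ | ⟨_, hy⟩)
      · exact absurd hy (lt_irrefl _)
      · exact hy

end Pool.Agent.H29.EP
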