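import Pool.Agent.H51.EP.Stm

set_option autoImplicit false

namespace Pool.Agent.H29.EP

open Pool.Agent.H51.EP Pool.Agent.Helper687.Arith
open Pool.Agent.H872R3.KH (Tm Fm Str Sat)

/-- the assignment `w 0, …, w (j - 1), v 0, v 1, …` -/
def mix {M : Type} (j : ℕ) (w v : ℕ → M) : ℕ → M := fun i => if i < j then w i else v (i - j)

/-- products of equations -/
theorem or_iff_eq {M : Type} [PAModel M] (t s t' s' : M) :
    t * t' + s * s' = t * s' + s * t' ↔ t = s ∨ t' = s' := by
  constructor
  · intro h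
    rcases lt_trichotomy t s with h1 | h1 | h1
    · right
      obtain ⟨z, hz⟩ := (lt_iff_exists _ _).mp h1
      rw [← hz] at h
      have e : (t * t' + t * s') + (z + 1) * s' = (t * t' + t * s') + (z + 1) * t' := by
        linear_combination h
      have e' := add_left_cancel e
      exact (mul_left_cancel₀ (zero_lt_succ' z).ne' e').symm
    · exact Or.inl h1
    · right
      obtain ⟨z, hz⟩ := (lt_iff_exists _ _).mp h1
      rw [← hz] at h
      have e : (s * t' + s * s') + (z + 1) * t' = (s * t' + s * s') + (z + 1) * s' := by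
        linear_combination h
      have e' := add_left_cancel e
      exact mul_left_cancel₀ (zero_lt_succ' z).ne' e'
  · rintro (h | h)
    · rw [h]; ring
    · rw [h]

/-- sums of squares -/
theorem and_iff_eq {M : Type} [PAModel M] (t s t' s' : M) :
    t * t + s * s + (t' * t' + s' * s') = (t * s + t * s) + (t' * s' + t' * s') ↔
      t = s ∧ t' = s' := by
  have key : ∀ a b : M, a * b + a * b ≤ a * a + b * b ∧
      (a * b + a * b = a * a + b * b → a = b) := by
    have aux : ∀ a z : M, a * (a + (z + 1)) + a * (a + (z + 1)) < a * a + (a + (z + 1)) * (a + (z + 1)) := by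
      intro a z
      have e : a * a + (a + (z + 1)) * (a + (z + 1)) =
          a * (a + (z + 1)) + a * (a + (z + 1)) + (z + 1) * (z + 1) := by ring
      rw [e]
      exact lt_add_of_pos_right _ (mul_pos (zero_lt_succ' z) (zero_lt_succ' z))
    intro a b
    rcases lt_trichotomy a b with h1 | h1 | h1
    · obtain ⟨z, hz⟩ := (lt_iff_exists _ _).mp h1
      have := aux a z
      rw [hz] at this
      exact ⟨this.le, fun h => absurd h this.ne⟩
    · subst h1
      exact ⟨le_rfl, fun _ => rfl⟩
    · obtain ⟨z, hz⟩ := (lt_iff_exists _ _).mp h1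
      have := aux b z
      rw [hz] at this
      rw [mul_comm b a, add_comm (b * b)] at this
      exact ⟨this.le, fun h => absurd h this.ne⟩
  constructor
  · intro h
    have h1 := (key t s).1
    have h2 := (key t' s').1
    have h3 : t * s + t * s = t * t + s * s := by
      refine le_antisymm h1 ?_
      by_contra hlt
      exact absurd h (add_lt_add_of_lt_of_le (not_le.mp hlt) h2).ne'
    rw [h3] at h
    exact ⟨(key t s).2 h3, (key t' s').2 (add_left_cancel h).symm⟩
  · rintro ⟨rfl, rfl⟩
    rfl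

theorem PT.ev_ren {M : Type} [CommSemiring M] (ρ : ℕ → ℕ) (t : PT) (v : ℕ → M) :
    (t.sub fun i => .var (ρ i)).ev v = t.ev (fun i => v (ρ i)) := by
  rw [PT.ev_sub]
  rfl

/-- normal form with variables indexed by natural numbers -/
theorem nf_aux (φ : EF) : ∃ (j : ℕ) (t s : PT), ∀ (M : Type) [PAModel M] (v : ℕ → M),
    φ.ev v ↔ ∃ w : ℕ → M, t.ev (mix j w v) = s.ev (mix j w v) := by
  have join : ∀ (j₁ j₂ : ℕ), ∃ ρ₁ ρ₂ : ℕ → ℕ, ∀ (M : Type) (v : ℕ → M) (A B : (ℕ → M) → Prop),
      (∃ w : ℕ → M, A (fun i => mix (j₁ + j₂) w v (ρ₁ i)) ∧ B (fun i => mix (j₁ + j₂) w v (ρ₂ i))) ↔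
        (∃ w, A (mix j₁ w v)) ∧ ∃ w, B (mix j₂ w v) := by
    intro j₁ j₂
    refine ⟨fun i => if i < j₁ then i else i + j₂, fun i => i + j₁, fun M v A B => ?_⟩
    have e1 : ∀ w : ℕ → M, (fun i => mix (j₁ + j₂) w v (if i < j₁ then i else i + j₂)) =
        mix j₁ w v := by
      intro w
      funext i
      unfold mix
      by_cases h : i < j₁
      · rw [if_pos h, if_pos h, if_pos (by omega)]
      · rw [if_neg h, if_neg h, if_neg (by omega)]
        congr 1
        omega
    have e2 : ∀ w : ℕ → M, (fun i => mix (j₁ + j₂) w v (i + j₁)) =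
        mix j₂ (fun i => w (i + j₁)) v := by
      intro w
      funext i
      unfold mix
      by_cases h : i < j₂
      · rw [if_pos h, if_pos (by omega)]
      · rw [if_neg h, if_neg (by omega)]
        congr 1
        omega
    simp only [e1, e2]
    constructor
    · rintro ⟨w, h1, h2⟩
      exact ⟨⟨w, h1⟩, ⟨_, h2⟩⟩
    · rintro ⟨⟨w1, h1⟩, ⟨w2, h2⟩⟩
      refine ⟨fun i => if i < j₁ then w1 i else w2 (i - j₁), ?_, ?_⟩
      · have : mix j₁ (fun i => if i < j₁ then w1 i else w2 (i - j₁)) v = mix j₁ w1 v := by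
          funext i
          unfold mix
          by_cases h : i < j₁
          · rw [if_pos h, if_pos h]
            exact if_pos h
          · rw [if_neg h, if_neg h]
        rw [this]
        exact h1
      · have : (fun i => if i + j₁ < j₁ then w1 (i + j₁) else w2 (i + j₁ - j₁)) = w2 := by
          funext i
          rw [if_neg (by omega), Nat.add_sub_cancel]
        rw [this]
        exact h2
  induction φ with
  | eq t s =>
    refine ⟨0, t, s, fun M _ v => ?_⟩
    have : ∀ w : ℕ → M, mix 0 w v = v := fun w => by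
      funext i
      unfold mix
      rw [if_neg (by omega), Nat.sub_zero]
    simp only [this, EF.ev, exists_const]
  | and φ ψ ihφ ihψ =>
    obtain ⟨j₁, t₁, s₁, h₁⟩ := ihφ
    obtain ⟨j₂, t₂, s₂, h₂⟩ := ihψ
    obtain ⟨ρ₁, ρ₂, h⟩ := join j₁ j₂
    refine ⟨j₁ + j₂,
      .add (.add (.mul (t₁.sub fun i => .var (ρ₁ i)) (t₁.sub fun i => .var (ρ₁ i)))
        (.mul (s₁.sub fun i => .var (ρ₁ i)) (s₁.sub fun i => .var (ρ₁ i))))
        (.add (.mul (t₂.sub fun i => .var (ρ₂ i)) (t₂.sub fun i => .var (ρ₂ i)))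
        (.mul (s₂.sub fun i => .var (ρ₂ i)) (s₂.sub fun i => .var (ρ₂ i)))),
      .add (.add (.mul (t₁.sub fun i => .var (ρ₁ i)) (s₁.sub fun i => .var (ρ₁ i)))
        (.mul (t₁.sub fun i => .var (ρ₁ i)) (s₁.sub fun i => .var (ρ₁ i))))
        (.add (.mul (t₂.sub fun i => .var (ρ₂ i)) (s₂.sub fun i => .var (ρ₂ i)))
        (.mul (t₂.sub fun i => .var (ρ₂ i)) (s₂.sub fun i => .var (ρ₂ i)))),
      fun M _ v => ?_⟩
    simp only [EF.ev, PT.ev, PT.ev_ren, and_iff_eq]
    rw [h M v (fun u => t₁.ev u = s₁.ev u) (fun u => t₂.ev u = s₂.ev u), ← h₁, ← h₂]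
  | or φ ψ ihφ ihψ =>
    obtain ⟨j₁, t₁, s₁, h₁⟩ := ihφ
    obtain ⟨j₂, t₂, s₂, h₂⟩ := ihψ
    obtain ⟨ρ₁, ρ₂, h⟩ := join j₁ j₂
    refine ⟨j₁ + j₂,
      .add (.mul (t₁.sub fun i => .var (ρ₁ i)) (t₂.sub fun i => .var (ρ₂ i)))
        (.mul (s₁.sub fun i => .var (ρ₁ i)) (s₂.sub fun i => .var (ρ₂ i))),
      .add (.mul (t₁.sub fun i => .var (ρ₁ i)) (s₂.sub fun i => .var (ρ₂ i)))
        (.mul (s₁.sub fun i => .var (ρ₁ i)) (t₂.sub fun i => .var (ρ₂ i))),
      fun M _ v => ?_⟩
    simp only [EF.ev, PT.ev, PT.ev_ren, or_iff_eq, exists_or]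
    have e1 := h M v (fun u => t₁.ev u = s₁.ev u) (fun _ => True)
    have e2 := h M v (fun _ => True) (fun u => t₂.ev u = s₂.ev u)
    simp only [and_true, true_and, exists_const] at e1 e2
    rw [h₁ M v, h₂ M v]
    refine or_congr ?_ ?_
    · refine Iff.symm (e1.trans ?_)
      exact ⟨fun h => h, fun h => h⟩
    · refine Iff.symm (e2.trans ?_)
      exact ⟨fun h => h, fun h => h⟩
  | ex φ ih =>
    obtain ⟨j, t, s, h⟩ := ih
    refine ⟨j + 1, t, s, fun M _ v => ?_⟩
    simp only [EF.ev, h]
    constructor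
    · rintro ⟨a, w, e⟩
      refine ⟨fun i => if i < j then w i else a, ?_⟩
      have : mix (j + 1) (fun i => if i < j then w i else a) v = mix j w (Helper687.Arith.cns a v) := by
        funext i
        unfold mix
        rcases lt_trichotomy i j with h1 | h1 | h1
        · rw [if_pos (by omega), if_pos h1]
          exact if_pos h1
        · subst h1
          rw [if_pos (by omega), if_neg (by omega), Nat.sub_self]
          exact if_neg (lt_irrefl _)
        · rw [if_neg (by omega), if_neg (by omega)]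
          obtain ⟨k, rfl⟩ : ∃ k, i = j + k + 1 := ⟨i - j - 1, by omega⟩
          rw [show j + k + 1 - (j + 1) = k by omega, show j + k + 1 - j = k + 1 by omega]
          rfl
      rw [this]
      exact e
    · rintro ⟨w, e⟩
      refine ⟨w j, w, ?_⟩
      have : mix (j + 1) w v = mix j w (Helper687.Arith.cns (w j) v) := by
        funext i
        unfold mix
        rcases lt_trichotomy i j with h1 | h1 | h1
        · rw [if_pos (by omega), if_pos h1]
        · subst h1
          rw [if_pos (by omega), if_neg (by omega), Nat.sub_self]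
          rfl
        · rw [if_neg (by omega), if_neg (by omega)]
          obtain ⟨k, rfl⟩ : ∃ k, i = j + k + 1 := ⟨i - j - 1, by omega⟩
          rw [show j + k + 1 - (j + 1) = k by omega, show j + k + 1 - j = k + 1 by omega]
          rfl
      rw [← this]
      exact e

theorem sat_exs (M : Type) [PAModel M] (n : ℕ) : ∀ (j : ℕ) (φ : Fm (n + j)) (v : Fin n → M),
    Sat (strOf M) (exs j φ) v ↔ ∃ w : ℕ → M, Sat (strOf M) φ (fun i => mix j w (ext0 v) i.1)
  | 0, φ, v => by
    have : ∀ w : ℕ → M, (fun i : Fin (n + 0) => mix 0 w (ext0 v) i.1) = v := fun w => by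
      funext i
      unfold mix ext0
      rw [if_neg (by omega), Nat.sub_zero]
      exact dif_pos i.2
    simp only [exs, this, exists_const]
  | j + 1, φ, v => by
    rw [exs, sat_exs M n j (.ex φ) v]
    constructor
    · rintro ⟨w, a, h⟩
      refine ⟨fun i => match i with | 0 => a | i + 1 => w i, ?_⟩
      have : (fun i : Fin (n + (j + 1)) => mix (j + 1)
          (fun i => match i with | 0 => a | i + 1 => w i) (ext0 v) i.1) =
          H872R3.KH.cns a (fun i => mix j w (ext0 v) i.1) := by
        funext i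
        refine Fin.cases ?_ (fun i => ?_) i
        · rfl
        · simp only [H872R3.KH.cns, Fin.cases_succ, mix, Fin.val_succ]
          by_cases h : i.1 < j
          · rw [if_pos h, if_pos (by omega)]
          · rw [if_neg h, if_neg (by omega), Nat.add_sub_add_right]
      rw [this]
      exact h
    · rintro ⟨w, h⟩
      refine ⟨fun i => w (i + 1), w 0, ?_⟩
      have : (fun i : Fin (n + (j + 1)) => mix (j + 1) w (ext0 v) i.1) =
          H872R3.KH.cns (w 0) (fun i : Fin (n + j) => mix j (fun i => w (i + 1)) (ext0 v) i.1) := by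
        funext i
        refine Fin.cases ?_ (fun i => ?_) i
        · rfl
        · simp only [H872R3.KH.cns, Fin.cases_succ, mix, Fin.val_succ]
          by_cases h : i.1 < j
          · rw [if_pos h, if_pos (by omega)]
          · rw [if_neg h, if_neg (by omega), Nat.add_sub_add_right]
      exact this ▸ h

theorem toTm_ev (M : Type) [PAModel M] {n : ℕ} (σ : ℕ → Tm n) (v : Fin n → M) (t : PT) :
    (t.toTm σ).ev (strOf M) v = t.ev (fun i => (σ i).ev (strOf M) v) := by
  induction t with
  | var i => rfl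
  | zero => rfl
  | succ t ih => simp only [PT.toTm, Tm.ev, PT.ev, ih]; rfl
  | add t s iht ihs => simp only [PT.toTm, Tm.ev, PT.ev, iht, ihs]; rfl
  | mul t s iht ihs => simp only [PT.toTm, Tm.ev, PT.ev, iht, ihs]; rfl

/-- part NF -/
theorem NF : S_NF := by
  rintro R ⟨φ, hφ⟩ n
  obtain ⟨j, t, s, h⟩ := nf_aux φ
  refine ⟨j, t.toTm (fun i => if h : i < n + j then .var ⟨i, h⟩ else .zero),
    s.toTm (fun i => if h : i < n + j then .var ⟨i, h⟩ else .zero), fun M _ v => ?_⟩
  rw [sat_exs, ← hφ, h]
  refine exists_congr fun w => ?_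
  have e : (fun i : ℕ => Tm.ev (strOf M) (fun i : Fin (n + j) => mix j w (ext0 v) i.1)
      (if h : i < n + j then Tm.var ⟨i, h⟩ else Tm.zero)) = mix j w (ext0 v) := by
    funext i
    by_cases hi : i < n + j
    · rw [dif_pos hi]
      rfl
    · rw [dif_neg hi]
      unfold mix ext0
      rw [if_neg (by omega), dif_neg (by omega)]
      rfl
  simp only [Sat, toTm_ev, e]

end Pool.Agent.H29.EP
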