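import Pool.Agent.H51.EP.Stm

set_option autoImplicit false

namespace Pool.Agent.H29.EP

open Pool.Agent.H51.EP Pool.Agent.Helper687.Arith

variable {M : Type} [PAModel M]

theorem rule_mono {S T : M → M → M → Prop} (h : ∀ f x y, S f x y → T f x y) {f x y : M}
    (r : Rule S f x y) : Rule T f x y := by
  cases r with
  | id => exact .id _
  | const => exact .const _ _
  | fst => exact .fst _ _
  | snd => exact .snd _ _
  | pair h1 h2 => exact .pair (h _ _ _ h1) (h _ _ _ h2)
  | comp h1 h2 => exact .comp (h _ _ _ h1) (h _ _ _ h2)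
  | app h1 => exact .app (h _ _ _ h1)
  | lam => exact .lam _ _
  | clo h1 => exact .clo (h _ _ _ h1)
  | cases0 h1 => exact .cases0 (h _ _ _ h1)
  | casesS h1 => exact .casesS (h _ _ _ h1)
  | rec0 h1 => exact .rec0 (h _ _ _ h1)
  | recS h1 h2 => exact .recS (h _ _ _ h1) (h _ _ _ h2)
  | succ => exact .succ _
  | add => exact .add _ _
  | mul => exact .mul _ _

/-- concatenation of two coded sequences -/
theorem exists_concat (a b l a' b' l' : M) : ∃ a'' b'', (∀ i, i ≤ l → val a'' b'' i = val a b i) ∧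
    ∀ i, i ≤ l' → val a'' b'' (l + 1 + i) = val a' b' i := by
  have hd : DefF (M := M) (fun v => (fun i => the (fun z => (i < l + 1 ∧ z = val a b i) ∨
      (l + 1 ≤ i ∧ z = val a' b' (sb i (l + 1))))) (v 0)) := by
    (repeat' first | with_reducible apply Pool.Agent.H51.EP.Def.cg | with_reducible apply Pool.Agent.H51.EP.DefF.pr | with_reducible apply Pool.Agent.H51.EP.DefF.bn | with_reducible apply Pool.Agent.H51.EP.DefF.ff | with_reducible apply Pool.Agent.H51.EP.DefF.fc | with_reducible apply Pool.Agent.H51.EP.DefF.pw | with_reducible apply Pool.Agent.H51.EP.DefF.sb | with_reducible apply Pool.Agent.H51.EP.DefF.rc | with_reducible apply Pool.Agent.H51.EP.Def.dvd | assumption | with_reducible exact Pool.Agent.Helper687.Arith.DefF.var _ | with_reducible exact Pool.Agent.Helper687.Arith.DefF.const _ | with_reducible exact Pool.Agent.Helper687.Arith.Def.const _ | with_reducible apply Pool.Agent.Helper687.Arith.DefF.val | with_reducible apply Pool.Agent.Helper687.Arith.DefF.pow2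 | with_reducible apply Pool.Agent.Helper687.Arith.Def.and | with_reducible apply Pool.Agent.Helper687.Arith.Def.or | with_reducible apply Pool.Agent.Helper687.Arith.Def.iff | with_reducible apply Pool.Agent.Helper687.Arith.Def.not | with_reducible apply Pool.Agent.Helper687.Arith.Def.ex | with_reducible apply Pool.Agent.Helper687.Arith.Def.all | with_reducible apply Pool.Agent.Helper687.Arith.Def.imp | with_reducible apply Pool.Agent.Helper687.Arith.Def.eq | with_reducible apply Pool.Agent.Helper687.Arith.Def.lt | with_reducible apply Pool.Agent.Helper687.Arith.Def.le | with_reducible apply Pool.Agent.Helper687.Arith.DefF.add | with_reducible apply Pool.Agent.Helper687.Arith.DefF.mul | with_reducible apply Pool.Agent.Helper687.Arith.DefF.the)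
  obtain ⟨a'', b'', h⟩ := exists_val (f := fun i => the (fun z => (i < l + 1 ∧ z = val a b i) ∨
      (l + 1 ≤ i ∧ z = val a' b' (sb i (l + 1))))) hd (l + 1 + (l' + 1))
  refine ⟨a'', b'', fun i hi => ?_, fun i hi => ?_⟩
  · have hi' : i < l + 1 := lt_succ_iff.mpr hi
    rw [h i (lt_of_lt_of_le hi' le_self_add)]
    refine the_eq (Or.inl ⟨hi', rfl⟩) ?_
    rintro y (⟨_, hy⟩ | ⟨hy, _⟩)
    · exact hy
    · exact absurd hi' (not_lt.mpr hy)
  · rw [h (l + 1 + i) (by gcongr; exact lt_succ_iff.mpr hi)]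
    have e : sb (l + 1 + i) (l + 1) = i := add_left_cancel (sb_add (le_self_add))
    refine the_eq (Or.inr ⟨le_self_add, by rw [e]⟩) ?_
    rintro y (⟨hy, _⟩ | ⟨_, hy⟩)
    · exact absurd hy (not_lt.mpr le_self_add)
    · rw [hy, e]

/-- joining two evaluations -/
theorem der_join {a b l a' b' l' : M} (h : Der a b l) (h' : Der a' b' l') :
    ∃ a'' b'', Der a'' b'' (l + 1 + l') ∧ (∀ i, i ≤ l → val a'' b'' i = val a b i) ∧
      ∀ i, i ≤ l' → val a'' b'' (l + 1 + i) = val a' b' i := by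
  obtain ⟨a'', b'', h1, h2⟩ := exists_concat a b l a' b' l'
  refine ⟨a'', b'', fun i hi => ?_, h1, h2⟩
  rcases lt_or_ge i (l + 1) with hi' | hi'
  · obtain ⟨f, x, y, e, r⟩ := h i hi'
    refine ⟨f, x, y, (h1 i (lt_succ_iff.mp hi')).trans e, rule_mono ?_ r⟩
    rintro f' x' y' ⟨j, hj, hj'⟩
    exact ⟨j, hj, (h1 j (hj.le.trans (lt_succ_iff.mp hi'))).trans hj'⟩
  · obtain ⟨i', rfl⟩ := exists_add_of_le hi'
    have hi'' : i' < l' + 1 := by
      rw [add_assoc (l + 1) l' 1] at hi
      exact lt_of_add_lt_add_left hi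
    obtain ⟨f, x, y, e, r⟩ := h' i' hi''
    refine ⟨f, x, y, (h2 i' (lt_succ_iff.mp hi'')).trans e, rule_mono ?_ r⟩
    rintro f' x' y' ⟨j, hj, hj'⟩
    exact ⟨l + 1 + j, by gcongr, (h2 j (hj.le.trans (lt_succ_iff.mp hi''))).trans hj'⟩

/-- appending one entry -/
theorem der_ext {a b l f x y : M} (h : Der a b l)
    (r : Rule (fun f' x' y' => ∃ j, j ≤ l ∧ val a b j = tr f' x' y') f x y) : E f x y := by
  obtain ⟨a', b', h'⟩ := exists_val (f := fun _ => tr f x y) (DefF.const _) 1
  have h'0 : val a' b' 0 = tr f x y := h' 0 zero_lt_one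
  obtain ⟨a'', b'', h1, h2⟩ := exists_concat a b l a' b' 0
  have h20 : val a'' b'' (l + 1) = tr f x y := by
    have := h2 0 le_rfl
    rw [add_zero] at this
    rw [this, h'0]
  refine ⟨a'', b'', l + 1, h20, fun i hi => ?_⟩
  rcases lt_succ_iff'.mp hi with hi' | rfl
  · obtain ⟨f1, x1, y1, e, r1⟩ := h i hi'
    refine ⟨f1, x1, y1, (h1 i (lt_succ_iff.mp hi')).trans e, rule_mono ?_ r1⟩
    rintro f' x' y' ⟨j, hj, hj'⟩
    exact ⟨j, hj, (h1 j (hj.le.trans (lt_succ_iff.mp hi'))).trans hj'⟩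
  · refine ⟨f, x, y, h20, rule_mono ?_ r⟩
    rintro f' x' y' ⟨j, hj, hj'⟩
    exact ⟨j, lt_succ_iff.mpr hj, (h1 j hj).trans hj'⟩

/-- axioms -/
theorem E_of_nil {f x y : M} (r : Rule (fun _ _ _ => False) f x y) : E f x y := by
  obtain ⟨a, b, h⟩ := exists_val (f := fun _ => tr f x y) (DefF.const _) 1
  have h0 : val a b 0 = tr f x y := h 0 zero_lt_one
  refine ⟨a, b, 0, h0, fun i hi => ?_⟩
  rw [zero_add] at hi
  rw [lt_one_iff'.mp hi]
  exact ⟨f, x, y, h0, rule_mono (fun _ _ _ h => h.elim) r⟩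

/-- rules with one premise -/
theorem E_of_one {f x y f1 x1 y1 : M} (h : E f1 x1 y1)
    (r : ∀ S : M → M → M → Prop, S f1 x1 y1 → Rule S f x y) : E f x y := by
  obtain ⟨a, b, l, e, hd⟩ := h
  exact der_ext hd (r _ ⟨l, le_rfl, e⟩)

/-- rules with two premises -/
theorem E_of_two {f x y f1 x1 y1 f2 x2 y2 : M} (h1 : E f1 x1 y1) (h2 : E f2 x2 y2)
    (r : ∀ S : M → M → M → Prop, S f1 x1 y1 → S f2 x2 y2 → Rule S f x y) : E f x y := by
  obtain ⟨a, b, l, e, hd⟩ := h1
  obtain ⟨a', b', l', e', hd'⟩ := h2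
  obtain ⟨a'', b'', hd'', k1, k2⟩ := der_join hd hd'
  exact der_ext hd'' (r _ ⟨l, le_self_add.trans le_self_add, (k1 l le_rfl).trans e⟩
    ⟨l + 1 + l', le_rfl, (k2 l' le_rfl).trans e'⟩)

/-- part PC1 -/
theorem PC1 : S_PC1 := by
  intro M _ f x y r
  cases r with
  | id => exact E_of_nil (.id _)
  | const => exact E_of_nil (.const _ _)
  | fst => exact E_of_nil (.fst _ _)
  | snd => exact E_of_nil (.snd _ _)
  | pair h1 h2 => exact E_of_two h1 h2 fun S s1 s2 => .pair s1 s2
  | comp h1 h2 => exact E_of_two h1 h2 fun S s1 s2 => .comp s1 s2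
  | app h1 => exact E_of_one h1 fun S s => .app s
  | lam => exact E_of_nil (.lam _ _)
  | clo h1 => exact E_of_one h1 fun S s => .clo s
  | cases0 h1 => exact E_of_one h1 fun S s => .cases0 s
  | casesS h1 => exact E_of_one h1 fun S s => .casesS s
  | rec0 h1 => exact E_of_one h1 fun S s => .rec0 s
  | recS h1 h2 => exact E_of_two h1 h2 fun S s1 s2 => .recS s1 s2
  | succ => exact E_of_nil (.succ _)
  | add => exact E_of_nil (.add _ _)
  | mul => exact E_of_nil (.mul _ _)

end Pool.Agent.H29.EP
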