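import Pool.Agent.H51.EP.SynStm

set_option autoImplicit false

universe u

namespace Pool.Agent.H29.EP.SynL

open Pool.Agent.H51.EP Pool.Agent.H51.EP.Syn

variable {C : Type u}

theorem Tm.subst_comp {n m k : ℕ} (σ : Fin n → Syn.Tm C m) (τ : Fin m → Syn.Tm C k)
    (t : Syn.Tm C n) : (t.subst σ).subst τ = t.subst (fun i => (σ i).subst τ) := by
  induction t with
  | var i => rfl
  | cst c => rfl
  | zero => rfl
  | succ t ih => simp only [Syn.Tm.subst, ih]
  | add t s iht ihs => simp only [Syn.Tm.subst, iht, ihs]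
  | mul t s iht ihs => simp only [Syn.Tm.subst, iht, ihs]

theorem up_comp {n m k : ℕ} (σ : Fin n → Syn.Tm C m) (τ : Fin m → Syn.Tm C k) :
    (fun i => (Syn.up σ i).subst (Syn.up τ)) = Syn.up (fun i => (σ i).subst τ) := by
  funext i
  refine Fin.cases rfl (fun j => ?_) i
  show ((σ j).subst (fun l => Syn.Tm.var l.succ)).subst (Syn.up τ) =
    ((σ j).subst τ).subst (fun l => Syn.Tm.var l.succ)
  rw [Tm.subst_comp, Tm.subst_comp]
  rfl

theorem Fm.subst_comp {n : ℕ} (φ : Syn.Fm C n) : ∀ {m k : ℕ} (σ : Fin n → Syn.Tm C m)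
    (τ : Fin m → Syn.Tm C k), (φ.subst σ).subst τ = φ.subst (fun i => (σ i).subst τ) := by
  induction φ with
  | bot => intro m k σ τ; rfl
  | eq t s => intro m k σ τ; simp only [Syn.Fm.subst, Tm.subst_comp]
  | and φ ψ ihφ ihψ => intro m k σ τ; simp only [Syn.Fm.subst, ihφ, ihψ]
  | or φ ψ ihφ ihψ => intro m k σ τ; simp only [Syn.Fm.subst, ihφ, ihψ]
  | imp φ ψ ihφ ihψ => intro m k σ τ; simp only [Syn.Fm.subst, ihφ, ihψ]
  | all φ ih => intro m k σ τ; simp only [Syn.Fm.subst, ih, up_comp]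
  | ex φ ih => intro m k σ τ; simp only [Syn.Fm.subst, ih, up_comp]

theorem up_var (n : ℕ) : Syn.up (fun i : Fin n => (Syn.Tm.var i : Syn.Tm C n)) =
    fun i => Syn.Tm.var i := by
  funext i
  refine Fin.cases rfl (fun j => rfl) i

theorem Tm.subst_id {n : ℕ} (t : Syn.Tm C n) : t.subst (fun i => .var i) = t := by
  induction t with
  | var i => rfl
  | cst c => rfl
  | zero => rfl
  | succ t ih => simp only [Syn.Tm.subst, ih]
  | add t s iht ihs => simp only [Syn.Tm.subst, iht, ihs]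
  | mul t s iht ihs => simp only [Syn.Tm.subst, iht, ihs]

theorem Fm.subst_id {n : ℕ} (φ : Syn.Fm C n) : φ.subst (fun i => .var i) = φ := by
  induction φ with
  | bot => rfl
  | eq t s => simp only [Syn.Fm.subst, Tm.subst_id]
  | and φ ψ ihφ ihψ => simp only [Syn.Fm.subst, ihφ, ihψ]
  | or φ ψ ihφ ihψ => simp only [Syn.Fm.subst, ihφ, ihψ]
  | imp φ ψ ihφ ihψ => simp only [Syn.Fm.subst, ihφ, ihψ]
  | all φ ih => simp only [Syn.Fm.subst, up_var, ih]
  | ex φ ih => simp only [Syn.Fm.subst, up_var, ih]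

theorem Fm.up_inst {n m : ℕ} (φ : Syn.Fm C (n + 1)) (σ : Fin n → Syn.Tm C m) (t : Syn.Tm C m) :
    (φ.subst (Syn.up σ)).inst t = φ.subst (fun i => Fin.cases t (fun j => σ j) i) := by
  unfold Syn.Fm.inst
  rw [Fm.subst_comp]
  congr 1
  funext i
  refine Fin.cases rfl (fun j => ?_) i
  show ((σ j).subst (fun l => Syn.Tm.var l.succ)).subst _ = σ j
  rw [Tm.subst_comp]
  exact Tm.subst_id _

theorem Prv.weak {n : ℕ} {Γ : List (Syn.Fm C n)} {φ : Syn.Fm C n} (h : Syn.Prv Γ φ) :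
    ∀ {Δ : List (Syn.Fm C n)}, Γ ⊆ Δ → Syn.Prv Δ φ := by
  induction h with
  | hyp h => intro Δ hΔ; exact .hyp (hΔ h)
  | botE _ ih => intro Δ hΔ; exact .botE (ih hΔ)
  | andI _ _ ih1 ih2 => intro Δ hΔ; exact .andI (ih1 hΔ) (ih2 hΔ)
  | andE₁ _ ih => intro Δ hΔ; exact .andE₁ (ih hΔ)
  | andE₂ _ ih => intro Δ hΔ; exact .andE₂ (ih hΔ)
  | orI₁ _ ih => intro Δ hΔ; exact .orI₁ (ih hΔ)
  | orI₂ _ ih => intro Δ hΔ; exact .orI₂ (ih hΔ)
  | orE _ _ _ ih1 ih2 ih3 =>
    intro Δ hΔ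
    exact .orE (ih1 hΔ) (ih2 (List.cons_subset_cons _ hΔ)) (ih3 (List.cons_subset_cons _ hΔ))
  | impI _ ih => intro Δ hΔ; exact .impI (ih (List.cons_subset_cons _ hΔ))
  | impE _ _ ih1 ih2 => intro Δ hΔ; exact .impE (ih1 hΔ) (ih2 hΔ)
  | allI _ ih => intro Δ hΔ; exact .allI (ih (List.map_subset _ hΔ))
  | allE t _ ih => intro Δ hΔ; exact .allE t (ih hΔ)
  | exI t _ ih => intro Δ hΔ; exact .exI t (ih hΔ)
  | exE _ _ ih1 ih2 =>
    intro Δ hΔ
    exact .exE (ih1 hΔ) (ih2 (List.cons_subset_cons _ (List.map_subset _ hΔ)))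
  | refl t => intro Δ hΔ; exact .refl t
  | repl φ σ τ _ _ ih1 ih2 => intro Δ hΔ; exact .repl φ σ τ (fun i => ih1 i hΔ) (ih2 hΔ)

theorem Proves.map {T : Set (Syn.Fm C 0)} {φ ψ : Syn.Fm C 0} (h : Syn.Proves T φ)
    (f : ∀ L, Syn.Prv L φ → Syn.Prv L ψ) : Syn.Proves T ψ := by
  obtain ⟨L, hL, h⟩ := h
  exact ⟨L, hL, f L h⟩

theorem Proves.map2 {T : Set (Syn.Fm C 0)} {φ ψ χ : Syn.Fm C 0} (h : Syn.Proves T φ)
    (h' : Syn.Proves T ψ) (f : ∀ L, Syn.Prv L φ → Syn.Prv L ψ → Syn.Prv L χ) :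
    Syn.Proves T χ := by
  obtain ⟨L, hL, h⟩ := h
  obtain ⟨L', hL', h'⟩ := h'
  refine ⟨L ++ L', fun α hα => ?_, f _ (Prv.weak h (List.subset_append_left _ _))
    (Prv.weak h' (List.subset_append_right _ _))⟩
  rcases List.mem_append.mp hα with hα | hα
  · exact hL α hα
  · exact hL' α hα

end Pool.Agent.H29.EP.SynL

namespace Pool.Agent.H29.EP

open Pool.Agent.H51.EP

theorem syn_subst_fin0 {C : Type u} (φ : Syn.Fm C 0) (σ : Fin 0 → Syn.Tm C 0) :
    φ.subst σ = φ := by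
  have : σ = fun i => .var i := funext fun i => i.elim0
  rw [this]
  exact SynL.Fm.subst_id φ

theorem cst_cases {C : Type u} {n : ℕ} (a : C) (v : Fin n → C) :
    (fun i : Fin (n + 1) => (Fin.cases (Syn.Tm.cst a) (fun j => Syn.Tm.cst (v j)) i :
      Syn.Tm C 0)) = fun i => Syn.Tm.cst (Fin.cases a v i : C) := by
  funext i
  refine Fin.cases rfl (fun j => rfl) i

/-- part SY6 -/
theorem SY6 : S_SY6.{u} := by
  intro C T
  refine ⟨?_, ?_, ?_, ?_, ?_, ?_⟩
  · intro n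
    induction n with
    | zero =>
      intro χ v h
      rw [syn_subst_fin0]
      exact h
    | succ n ih =>
      intro χ v h
      have h1 := ih (.all χ) (fun i => v i.succ) h
      refine SynL.Proves.map h1 fun L hL => ?_
      have h2 := Syn.Prv.allE (Syn.Tm.cst (v 0)) hL
      rw [SynL.Fm.up_inst, cst_cases] at h2
      have e : (fun i : Fin (n + 1) => (Syn.Tm.cst (Fin.cases (v 0) (fun i => v i.succ) i : C) :
          Syn.Tm C 0)) = fun i => Syn.Tm.cst (v i) := by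
        funext i
        refine Fin.cases rfl (fun j => rfl) i
      rw [e] at h2
      exact h2
  · intro φ ψ h h'
    exact SynL.Proves.map2 h h' fun L h1 h2 => .impE h1 h2
  · intro φ ψ h h'
    exact SynL.Proves.map2 h h' fun L h1 h2 => .andI h1 h2
  · intro φ h
    exact ⟨[φ], fun α hα => by rw [List.mem_singleton.mp hα]; exact h, .hyp (by simp)⟩
  · intro t
    exact ⟨[], fun α hα => by simp at hα, .refl t⟩
  · rintro T' φ hT ⟨L, hL, h⟩
    exact ⟨L, fun α hα => hT (hL α hα), h⟩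

theorem syn_ev_subst {M : Type u} (A : Syn.Str M) {n : ℕ} (v : Fin n → M) (t : Syn.Tm M n) :
    (t.subst (fun i => Syn.Tm.cst (n := 0) (v i))).ev A id (fun i => i.elim0) =
      t.ev A id v := by
  induction t with
  | var i => rfl
  | cst c => rfl
  | zero => rfl
  | succ t ih => simp only [Syn.Tm.subst, Syn.Tm.ev, ih]
  | add t s iht ihs => simp only [Syn.Tm.subst, Syn.Tm.ev, iht, ihs]
  | mul t s iht ihs => simp only [Syn.Tm.subst, Syn.Tm.ev, iht, ihs]

theorem sy5_aux {M : Type u} (A : Syn.Str M) (T : Set (Syn.Fm M 0)) (n : ℕ) :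
    ∀ (j : ℕ) (φ : K.Fm (n + j)), (∀ u : Fin (n + j) → M, Syn.Sat A (id : M → M) (emF M φ) u →
      Syn.Proves T ((emF M φ).subst (fun i => Syn.Tm.cst (n := 0) (u i)))) →
      ∀ v : Fin n → M, Syn.Sat A (id : M → M) (emF M (exs j φ)) v →
        Syn.Proves T ((emF M (exs j φ)).subst (fun i => Syn.Tm.cst (n := 0) (v i)))
  | 0, φ, h, v, hv => h v hv
  | j + 1, φ, h, v, hv => by
    refine sy5_aux A T n j (.ex φ) ?_ v hv
    rintro u ⟨a, ha⟩
    refine SynL.Proves.map (h _ ha) fun L hL => ?_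
    refine .exI (Syn.Tm.cst a) ?_
    rw [SynL.Fm.up_inst, cst_cases]
    exact hL

/-- part SY5 -/
theorem SY5 : S_SY5.{u} := by
  intro M A n j t s v h
  refine sy5_aux A _ n j _ ?_ v h
  intro u hu
  refine ⟨[_], fun α hα => ?_, .hyp (List.mem_singleton.mpr rfl)⟩
  rw [List.mem_singleton.mp hα]
  refine Or.inr (.eq _ _ ?_)
  rw [syn_ev_subst, syn_ev_subst]
  exact hu

end Pool.Agent.H29.EP
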