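import Pool.Agent.H51.EP.SynStm

set_option autoImplicit false

universe u

namespace Pool.Agent.H29.EP

open Pool.Agent.H51.EP

theorem synT_subst_subst {C : Type u} {n m k : ℕ} (σ : Fin n → Syn.Tm C m) (τ : Fin m → Syn.Tm C k)
    (t : Syn.Tm C n) : (t.subst σ).subst τ = t.subst (fun i => (σ i).subst τ) := by
  induction t with
  | var i => rfl
  | cst c => rfl
  | zero => rfl
  | succ t ih => simp only [Syn.Tm.subst, ih]
  | add t s iht ihs => simp only [Syn.Tm.subst, iht, ihs]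
  | mul t s iht ihs => simp only [Syn.Tm.subst, iht, ihs]

theorem emT_subst_sh {C : Type u} {k : ℕ} (t : K.Tm k) :
    emT C (t.subst (fun l => .var l.succ)) = (emT C t).subst (fun l => .var l.succ) := by
  induction t with
  | var i => rfl
  | zero => rfl
  | succ t ih => simp only [H872R3.KH.Tm.subst, emT, Syn.Tm.subst, ih]
  | add t s iht ihs => simp only [H872R3.KH.Tm.subst, emT, Syn.Tm.subst, iht, ihs]
  | mul t s iht ihs => simp only [H872R3.KH.Tm.subst, emT, Syn.Tm.subst, iht, ihs]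

theorem emT_sh_subst_up {C : Type u} {k l : ℕ} (t : K.Tm k) (τ : Fin k → Syn.Tm C l) :
    (emT C (t.subst (fun l => .var l.succ))).subst (Syn.up τ) =
      ((emT C t).subst τ).subst (fun l => .var l.succ) := by
  rw [emT_subst_sh, synT_subst_subst, synT_subst_subst]
  rfl

theorem sy7_up {C : Type u} {n k l : ℕ} (σ : Fin n → K.Tm k) (τ : Fin k → Syn.Tm C l) :
    (fun i => (emT C (K.up σ i)).subst (Syn.up τ)) =
      Syn.up (fun i => (emT C (σ i)).subst τ) := by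
  funext i
  refine Fin.cases ?_ (fun i => ?_) i
  · rfl
  · exact emT_sh_subst_up (σ i) τ

theorem sy7_tm {C : Type u} {n : ℕ} (t : Syn.Tm C n) : ∃ cs : List C,
    ∀ (k l : ℕ) (ρ : C → K.Tm k) (σ : Fin n → K.Tm k) (τ : Fin k → Syn.Tm C l),
      (∀ c ∈ cs, (emT C (ρ c)).subst τ = .cst c) →
        (emT C (trT ρ σ t)).subst τ = t.subst (fun i => (emT C (σ i)).subst τ) := by
  induction t with
  | var i => exact ⟨[], fun k l ρ σ τ _ => rfl⟩
  | cst c => exact ⟨[c], fun k l ρ σ τ h => h c (by simp)⟩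
  | zero => exact ⟨[], fun k l ρ σ τ _ => rfl⟩
  | succ t ih =>
    obtain ⟨cs, h⟩ := ih
    exact ⟨cs, fun k l ρ σ τ h' => by simp only [trT, emT, Syn.Tm.subst, h k l ρ σ τ h']⟩
  | add t s iht ihs =>
    obtain ⟨cs, h⟩ := iht
    obtain ⟨cs', h'⟩ := ihs
    refine ⟨cs ++ cs', fun k l ρ σ τ hc => ?_⟩
    simp only [trT, emT, Syn.Tm.subst, h k l ρ σ τ (fun c hm => hc c (List.mem_append_left _ hm)),
      h' k l ρ σ τ (fun c hm => hc c (List.mem_append_right _ hm))]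
  | mul t s iht ihs =>
    obtain ⟨cs, h⟩ := iht
    obtain ⟨cs', h'⟩ := ihs
    refine ⟨cs ++ cs', fun k l ρ σ τ hc => ?_⟩
    simp only [trT, emT, Syn.Tm.subst, h k l ρ σ τ (fun c hm => hc c (List.mem_append_left _ hm)),
      h' k l ρ σ τ (fun c hm => hc c (List.mem_append_right _ hm))]

/-- part SY7 -/
theorem SY7 : S_SY7.{u} := by
  intro C n φ
  induction φ with
  | bot => exact ⟨[], fun k l ρ σ τ _ => rfl⟩
  | eq t s =>
    obtain ⟨cs, h⟩ := sy7_tm t
    obtain ⟨cs', h'⟩ := sy7_tm s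
    refine ⟨cs ++ cs', fun k l ρ σ τ hc => ?_⟩
    simp only [trF, emF, Syn.Fm.subst, h k l ρ σ τ (fun c hm => hc c (List.mem_append_left _ hm)),
      h' k l ρ σ τ (fun c hm => hc c (List.mem_append_right _ hm))]
  | and φ ψ ihφ ihψ =>
    obtain ⟨cs, h⟩ := ihφ
    obtain ⟨cs', h'⟩ := ihψ
    refine ⟨cs ++ cs', fun k l ρ σ τ hc => ?_⟩
    simp only [trF, emF, Syn.Fm.subst, h k l ρ σ τ (fun c hm => hc c (List.mem_append_left _ hm)),
      h' k l ρ σ τ (fun c hm => hc c (List.mem_append_right _ hm))]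
  | or φ ψ ihφ ihψ =>
    obtain ⟨cs, h⟩ := ihφ
    obtain ⟨cs', h'⟩ := ihψ
    refine ⟨cs ++ cs', fun k l ρ σ τ hc => ?_⟩
    simp only [trF, emF, Syn.Fm.subst, h k l ρ σ τ (fun c hm => hc c (List.mem_append_left _ hm)),
      h' k l ρ σ τ (fun c hm => hc c (List.mem_append_right _ hm))]
  | imp φ ψ ihφ ihψ =>
    obtain ⟨cs, h⟩ := ihφ
    obtain ⟨cs', h'⟩ := ihψ
    refine ⟨cs ++ cs', fun k l ρ σ τ hc => ?_⟩
    simp only [trF, emF, Syn.Fm.subst, h k l ρ σ τ (fun c hm => hc c (List.mem_append_left _ hm)),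
      h' k l ρ σ τ (fun c hm => hc c (List.mem_append_right _ hm))]
  | all φ ih =>
    obtain ⟨cs, h⟩ := ih
    refine ⟨cs, fun k l ρ σ τ hc => ?_⟩
    have h' := h (k + 1) (l + 1) (shρ ρ) (K.up σ) (Syn.up τ) (fun c hm => by
      rw [shρ, emT_sh_subst_up, hc c hm]
      rfl)
    rw [sy7_up] at h'
    simp only [trF, emF, Syn.Fm.subst, h']
  | ex φ ih =>
    obtain ⟨cs, h⟩ := ih
    refine ⟨cs, fun k l ρ σ τ hc => ?_⟩
    have h' := h (k + 1) (l + 1) (shρ ρ) (K.up σ) (Syn.up τ) (fun c hm => by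
      rw [shρ, emT_sh_subst_up, hc c hm]
      rfl)
    rw [sy7_up] at h'
    simp only [trF, emF, Syn.Fm.subst, h']

end Pool.Agent.H29.EP
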